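import Pool.Agent.H61.CMC.TargetsE1
import Pool.Agent.H61.CM4B.AsmB1
import Pool.Agent.H87.HK.YC

/-!
# DC3: decay of the theta function with an angular factor
-/

set_option autoImplicit false

namespace Pool.Agent.H58.CMC1

open MeasureTheory Set Filter NumberField NumberField.InfinitePlace NumberField.Units
  NumberField.Units.dirichletUnitTheorem Pool.Agent.H65.CM4 Pool.Agent.H65.CMC Pool.Agent.H25.HK
  Pool.Agent.H61.CM4 Pool.Agent.H61.CMC
open scoped Real

section

variable {k : Type} [Field k] [NumberField k] [IsTotallyReal k]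

theorem qs_zero' (x y c : Pl k → ℝ) : qs x y c (0 : V2 k) = 0 := by
  unfold qs qr
  simp

open scoped Classical in
theorem pq_zero (m : Pl k → ℤ) (x y c : Pl k → ℝ) :
    pq (wa m) x y c (0 : V2 k) = if m = 0 then 1 else 0 := by
  unfold pq wa qr
  by_cases hm : m = 0
  · rw [if_pos hm, hm]
    simp
  · rw [if_neg hm]
    obtain ⟨v, hv⟩ : ∃ v, m v ≠ 0 := by
      by_contra h
      push Not at h
      exact hm (funext h)
    refine Finset.prod_eq_zero (Finset.mem_univ v) ?_
    have hv' : (m v).natAbs ≠ 0 := Int.natAbs_ne_zero.2 hv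
    simp [hv']

open scoped Classical in
theorem th_bound (hANG : T_ANG) (m : Pl k → ℤ) (M : La k) (x y c : Pl k → ℝ)
    (hy : ∀ v, 0 < y v) (C : ℝ)
    (hp : ∀ u : V2 k, 0 ≤ pq (wa m) x y c u ∧
      pq (wa m) x y c u * Real.exp (-(2 * π) * qs x y c u) ≤
        C * Real.exp (-(2 * π) * qs x y (fun v => c v - Real.log 2) u)) :
    ‖th3 m M x y c - (if m = 0 then 1 else 0)‖ ≤
      C * |th2 M x y (fun v => c v - Real.log 2) - 1| := by
  obtain ⟨-, han, han0, -, -⟩ := hANG k m x y hy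
  have htop : ix (⊤ : La k) ≠ 0 := by
    unfold ix
    simp
  have hsT := (Pool.Agent.H61.CM4B.c_THT k ⊤ x y (fun v => c v - Real.log 2) htop hy).1
  have hs0 : Summable (fun u : V2 k => Real.exp (-(2 * π) *
      qs x y (fun v => c v - Real.log 2) u)) := by
    refine hsT.congr fun u => ?_
    rw [if_pos Submodule.mem_top]
  obtain ⟨g, hg⟩ : ∃ g : V2 k → ℝ, g = fun u => if u ∈ M then
    Real.exp (-(2 * π) * qs x y (fun v => c v - Real.log 2) u) else 0 := ⟨_, rfl⟩
  obtain ⟨h, hh⟩ : ∃ h : V2 k → ℂ, h = fun u => if u ∈ M then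
    am m x y u * ((pq (wa m) x y c u * Real.exp (-(2 * π) * qs x y c u) : ℝ) : ℂ) else 0 :=
    ⟨_, rfl⟩
  have hg0 : ∀ u, 0 ≤ g u := by
    intro u
    rw [hg]
    dsimp only
    split_ifs
    · exact (Real.exp_pos _).le
    · exact le_rfl
  have hgs : Summable g := by
    refine Summable.of_nonneg_of_le hg0 (fun u => ?_) hs0
    rw [hg]
    dsimp only
    split_ifs
    · exact le_rfl
    · exact (Real.exp_pos _).le
  have hle : ∀ u, ‖h u‖ ≤ C * g u := by
    intro u
    rw [hh, hg]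
    dsimp only
    split_ifs
    · obtain ⟨p1, p2⟩ := hp u
      have p3 : 0 ≤ pq (wa m) x y c u * Real.exp (-(2 * π) * qs x y c u) :=
        mul_nonneg p1 (Real.exp_pos _).le
      rw [norm_mul, Complex.norm_real, Real.norm_of_nonneg p3]
      calc ‖am m x y u‖ * (pq (wa m) x y c u * Real.exp (-(2 * π) * qs x y c u))
          ≤ 1 * (pq (wa m) x y c u * Real.exp (-(2 * π) * qs x y c u)) :=
            mul_le_mul_of_nonneg_right (han u) p3
        _ ≤ _ := by rw [one_mul]; exact p2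
    · rw [norm_zero, mul_zero]
  have hhs : Summable h := Summable.of_norm_bounded (hgs.mul_left C) hle
  have e1 : th3 m M x y c = h 0 + ∑' u, ite (u = 0) 0 (h u) := by
    have : th3 m M x y c = ∑' u, h u := by
      rw [hh]
      rfl
    rw [this]
    exact hhs.tsum_eq_add_tsum_ite 0
  have e2 : th2 M x y (fun v => c v - Real.log 2) = g 0 + ∑' u, ite (u = 0) 0 (g u) := by
    have : th2 M x y (fun v => c v - Real.log 2) = ∑' u, g u := by
      rw [hg]
      rfl
    rw [this]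
    exact hgs.tsum_eq_add_tsum_ite 0
  have e3 : g 0 = 1 := by
    rw [hg]
    dsimp only
    rw [if_pos M.zero_mem, qs_zero', mul_zero, Real.exp_zero]
  have e4 : h 0 = if m = 0 then 1 else 0 := by
    rw [hh]
    dsimp only
    rw [if_pos M.zero_mem, qs_zero', mul_zero, Real.exp_zero, mul_one, han0, pq_zero]
    split_ifs
    · simp
    · simp
  rw [e1, e2, e3, e4, add_sub_cancel_left, add_sub_cancel_left]
  have hg1 : ∀ u : V2 k, (0 : ℝ) ≤ ite (u = 0) 0 (g u) := by
    intro u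
    split_ifs
    · exact le_rfl
    · exact hg0 u
  have hgs1 : Summable (fun u : V2 k => (ite (u = 0) 0 (g u) : ℝ)) := by
    refine Summable.of_nonneg_of_le hg1 (fun u => ?_) hgs
    split_ifs
    · exact hg0 u
    · exact le_rfl
  have hh1 : ∀ u : V2 k, ‖(ite (u = 0) 0 (h u) : ℂ)‖ ≤ C * ite (u = 0) 0 (g u) := by
    intro u
    split_ifs
    · rw [norm_zero, mul_zero]
    · exact hle u
  rw [abs_of_nonneg (tsum_nonneg hg1), ← tsum_mul_left]
  exact tsum_of_norm_bounded (hgs1.mul_left C).hasSum hh1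

end

theorem pf_DC3 (hANG : T_ANG) (hPQB : T_PQB) : T_DC3 := by
  classical
  intro k _ _ _ m M x y hy
  obtain ⟨Cp, hCp, hpq⟩ := hPQB k (wa m)
  obtain ⟨C, c, hc, hD⟩ := Pool.Agent.H61.CM4B.c_DC2 k M x y hy
  have hyc := (Pool.Agent.H87.HK.yc_main k).2.2.2.1
  have hn : (0 : ℝ) < (dg k : ℝ) := by
    exact_mod_cast (Pool.Agent.H61.CM4B.c_IXD k).2.1
  obtain ⟨n, hn'⟩ : ∃ n : ℝ, n = (dg k : ℝ) := ⟨_, rfl⟩
  rw [← hn'] at hn
  have hT : (1 : ℝ) ≤ (2 : ℝ) ^ (n / 2) := Real.one_le_rpow one_le_two (by positivity)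
  refine ⟨Cp * C, c / 2, (2 : ℝ) ^ (n / 2), by positivity, hT, ?_⟩
  intro t ht z hz
  have ht0 : 0 < t := by linarith
  have hP : 0 < (2 : ℝ) ^ (n / 2) := by positivity
  have ht1 : 1 ≤ t / (2 : ℝ) ^ (n / 2) := by
    rw [le_div_iff₀ hP, one_mul]
    exact ht
  have h1 := hD (t / (2 : ℝ) ^ (n / 2)) ht1 z hz
  have e1 : yc k (Real.log (t / (2 : ℝ) ^ (n / 2))) z =
      fun v => yc k (Real.log t) z v - Real.log 2 := by
    funext v
    rw [hyc, hyc (Real.log t), Real.log_div ht0.ne' hP.ne', Real.log_rpow two_pos]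
    have hfin : (Module.finrank ℚ k : ℝ) = n := by
      rw [hn']
      rfl
    rw [hfin]
    field_simp
    ring
  have e2 : (t / (2 : ℝ) ^ (n / 2)) ^ ((2 : ℝ) / dg k) = t ^ ((2 : ℝ) / dg k) / 2 := by
    rw [← hn', Real.div_rpow ht0.le hP.le, ← Real.rpow_mul two_pos.le]
    have : n / 2 * (2 / n) = 1 := by field_simp
    rw [this, Real.rpow_one]
  rw [e1, e2] at h1
  have h2 := th_bound hANG m M x y (yc k (Real.log t) z) hy Cp (fun u => by
    obtain ⟨q1, q2, q3, q4⟩ := hpq x y (yc k (Real.log t) z) u hy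
    refine ⟨q1, q3.trans (le_of_eq ?_)⟩
    rw [q4]
    congr 2
    ring)
  refine h2.trans ?_
  calc Cp * |th2 M x y (fun v => yc k (Real.log t) z v - Real.log 2) - 1|
      ≤ Cp * (C * Real.exp (-c * (t ^ ((2 : ℝ) / dg k) / 2))) :=
        mul_le_mul_of_nonneg_left h1 hCp
    _ = Cp * C * Real.exp (-(c / 2) * t ^ ((2 : ℝ) / dg k)) := by
        rw [mul_assoc]
        congr 3
        ring

end Pool.Agent.H58.CMC1
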