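import Pool.Agent.H61.CMC.TargetsE1
import Pool.Agent.H61.CM4B.AsmB1

/-!
# EZ3: the completed Epstein zeta function with an angular factor
-/

set_option autoImplicit false

namespace Pool.Agent.H58.CMC1

open MeasureTheory Set Filter NumberField NumberField.InfinitePlace NumberField.Units
  NumberField.Units.dirichletUnitTheorem Pool.Agent.H65.CM4 Pool.Agent.H65.CMC Pool.Agent.H25.HK
  Pool.Agent.H61.CM4 Pool.Agent.H61.CMC
open scoped Real

open Pool.Agent.H36.CM4B (tsum_if summable_if)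

open scoped Classical in
/-- the sum of the kernels over the representatives in a lattice -/
theorem sum_kernels3 (hSKG : T_SKG) {k : Type} [Field k] [NumberField k] [IsTotallyReal k]
    (m : Pl k → ℤ) (hG : HG (GM m)) (M : La k) (x y : Pl k → ℝ)
    (ha : ∀ u : V2 k, ‖am m x y u‖ ≤ 1) (c : ℝ) (hc : 0 < c) (s : ℂ)
    (h3 : -3 ≤ s.re) (h2 : s.re < 2)
    (hpos : ∀ u : V2 k, u ≠ 0 → 0 < qp x y u)
    (hsum : Summable (fun u : V2 k => if u ∈ M ∧ u ∈ Fo k then (qp x y u) ^ (-(2 : ℝ)) else 0)) :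
    ∑' u : V2 k, (if u ∈ M ∧ u ∈ Fo k then
        am m x y u * Km m s ((c * qp x y u : ℝ) : ℂ) else 0) =
      ((1 / (2 * π) : ℝ) : ℂ) * ∫ t : ℝ, (GM m (2 + t * Complex.I) *
        Zd3 m M x y c (2 + t * Complex.I)) *
          (Complex.exp ((2 + t * Complex.I - s) ^ 2) / (2 + t * Complex.I - s)) := by
  have h1 := hSKG (GM m) hG s {u : V2 k // u ∈ M ∧ u ∈ Fo k} (fun i => am m x y i)
    (fun i => c * qp x y i) h3 h2 (fun i => ha i)
    (fun i => mul_pos hc (hpos _ i.2.2.1)) (by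
      have h := (summable_if (fun u : V2 k => u ∈ M ∧ u ∈ Fo k)
        (fun u => (qp x y u) ^ (-(2 : ℝ))) hsum).mul_left (c ^ (-2 : ℝ))
      refine h.congr fun i => ?_
      rw [Real.mul_rpow hc.le (hpos _ i.2.2.1).le])
  have h4 := h1.2
  have hKm : ∀ r : ℂ, Km m s r = KG (GM m) s r := fun r => rfl
  rw [tsum_if (fun u : V2 k => u ∈ M ∧ u ∈ Fo k)
    (fun u => am m x y u * Km m s ((c * qp x y u : ℝ) : ℂ))]
  simp only [hKm]
  rw [h4]
  congr 1
  refine integral_congr_ae (Filter.Eventually.of_forall fun t => ?_)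
  simp only [Zd3]
  rw [tsum_if (fun u : V2 k => u ∈ M ∧ u ∈ Fo k)
    (fun u => am m x y u * ((c * qp x y u : ℝ) : ℂ) ^ (-(2 + t * Complex.I)))]

open scoped Classical in
theorem pf_EZ3 (hGMA : T_GMA) (hSKG : T_SKG) (hANG : T_ANG) (hPH3 : T_PH3) : T_EZ3 := by
  intro k _ _ _ m M x y hix hy
  obtain ⟨hdk, -, -, -, hdu, -⟩ := Pool.Agent.H61.CM4B.c_IXD k
  have hixd := hdu M hix
  have hpos := (Pool.Agent.H61.CM4B.c_ME2 k M x y 2 hix hy (by norm_num)).1
  have hqn := (Pool.Agent.H61.CM4B.c_EZA k M x y hix hy).2.1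
  have ha := (hANG k m x y hy).2.1
  have hsum : ∀ N : La k, ix N ≠ 0 → ∀ σ : ℝ, 1 < σ →
      Summable (fun u : V2 k => if u ∈ N ∧ u ∈ Fo k then (qp x y u) ^ (-σ) else 0) := by
    intro N hN σ hσ
    have h := (Pool.Agent.H61.CM4B.c_ME2 k N x y (σ : ℂ) hN hy (by simpa using hσ)).2.1
    simpa only [Complex.ofReal_re] using h
  obtain ⟨Φ, hΦd, hΦ1, hΦ2, hΦb⟩ := hPH3 k m M x y hix hy
  refine ⟨hsum M hix, Φ, hΦd, hΦb, ?_, ?_, ?_⟩
  · intro s hs1 hs2
    have hm : (0 : ℝ) < (ix M : ℝ) := by exact_mod_cast Nat.pos_of_ne_zero hix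
    have hD : (0 : ℝ) < (Dm M : ℝ) := by
      exact_mod_cast Nat.mul_pos hdk (Nat.pos_of_ne_zero hix)
    have e1 := sum_kernels3 hSKG m (hGMA k m) M x y ha (ix M : ℝ)⁻¹ (inv_pos.mpr hm) s
      (by linarith) hs2 hpos (hsum M hix 2 (by norm_num))
    have e2 := sum_kernels3 hSKG m (hGMA k m) (du M) x y ha
      ((ix M : ℝ) / (Dm M : ℝ) ^ (2 * dg k))
      (div_pos hm (pow_pos hD _)) (1 - s) (by simp; linarith) (by simp; linarith) hpos
      (hsum (du M) hixd 2 (by norm_num))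
    have hre : ∀ t : ℝ, (2 + t * Complex.I : ℂ).re = 2 := by intro t; simp
    have e3 : ∀ t : ℝ, GM m (2 + t * Complex.I) * Zd3 m M x y (ix M : ℝ)⁻¹ (2 + t * Complex.I)
        = Φ (2 + t * Complex.I) := by
      intro t
      exact (hΦ1 _ (by rw [hre]; norm_num)).symm
    have e4 : ∀ t : ℝ, ((1 / dk k : ℝ) : ℂ) * (GM m (2 + t * Complex.I) *
        Zd3 m (du M) x y ((ix M : ℝ) / (Dm M : ℝ) ^ (2 * dg k)) (2 + t * Complex.I))
        = Φ (1 - (2 + t * Complex.I)) := by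
      intro t
      exact (hΦ2 _ (by rw [hre]; norm_num)).symm
    have e5 := Pool.Agent.H61.CM4B.c_SHI Φ s hΦd hΦb hs1 hs2
    rw [← e5]
    unfold Zm Em
    congr 1
    · have f1 : (fun u : V2 k => if u ∈ M ∧ u ∈ Fo k then
          an m (fun v => (x v : ℂ)) (fun v => (y v : ℂ)) u * Km m s
          (qn (fun v => (x v : ℂ)) (fun v => (y v : ℂ)) u / ix M) else 0)
          = fun u : V2 k => if u ∈ M ∧ u ∈ Fo k then
            am m x y u * Km m s (((ix M : ℝ)⁻¹ * qp x y u : ℝ) : ℂ) else 0 := by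
        funext u
        have : qn (fun v => (x v : ℂ)) (fun v => (y v : ℂ)) u / ix M
            = (((ix M : ℝ)⁻¹ * qp x y u : ℝ) : ℂ) := by
          rw [hqn]; push_cast; ring
        rw [this]
        rfl
      rw [f1, e1]
      congr 1
      refine integral_congr_ae (Filter.Eventually.of_forall fun t => ?_)
      simp only [e3]
    · have f1 : (fun u : V2 k => if u ∈ du M ∧ u ∈ Fo k then
          an m (fun v => (x v : ℂ)) (fun v => (y v : ℂ)) u * Km m (1 - s)
          ((ix M : ℂ) * qn (fun v => (x v : ℂ)) (fun v => (y v : ℂ)) u /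
            ((dk k * ix M : ℕ) : ℂ) ^ (2 * dg k)) else 0)
          = fun u : V2 k => if u ∈ du M ∧ u ∈ Fo k then
            am m x y u * Km m (1 - s)
              (((ix M : ℝ) / (Dm M : ℝ) ^ (2 * dg k) * qp x y u : ℝ) : ℂ) else 0 := by
        funext u
        have : (ix M : ℂ) * qn (fun v => (x v : ℂ)) (fun v => (y v : ℂ)) u /
            ((dk k * ix M : ℕ) : ℂ) ^ (2 * dg k)
            = (((ix M : ℝ) / (Dm M : ℝ) ^ (2 * dg k) * qp x y u : ℝ) : ℂ) := by
          rw [hqn, Dm]; push_cast; ring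
        rw [this]
        rfl
      rw [f1, e2, mul_left_comm, ← integral_const_mul]
      congr 1
      refine integral_congr_ae (Filter.Eventually.of_forall fun t => ?_)
      simp only [← e4]
      ring
  · intro s hs
    rw [hΦ1 s hs]
    congr 1
    unfold Zd3
    refine tsum_congr fun u => ?_
    have : qn (fun v => (x v : ℂ)) (fun v => (y v : ℂ)) u / ix M
        = (((ix M : ℝ)⁻¹ * qp x y u : ℝ) : ℂ) := by
      rw [hqn]; push_cast; ring
    rw [this]
  · intro s hs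
    rw [hΦ2 s hs]
    congr 2
    unfold Zd3
    refine tsum_congr fun u => ?_
    have : (ix M : ℂ) * qn (fun v => (x v : ℂ)) (fun v => (y v : ℂ)) u /
        ((dk k * ix M : ℕ) : ℂ) ^ (2 * dg k)
        = (((ix M : ℝ) / (Dm M : ℝ) ^ (2 * dg k) * qp x y u : ℝ) : ℂ) := by
      rw [hqn, Dm]; push_cast; ring
    rw [this]

end Pool.Agent.H58.CMC1
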